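import Mathlib

/-! Labellings with boundedly many labels, and the abelian-by-bounded condition. -/

namespace Pool.Agent.MP_5f7865_al

open Function

/-- `α` can be labelled with at most `n` labels so that equal labels force the relation. -/
def Lab (α : Type) (r : α → α → Prop) (n : ℕ) : Prop :=
  ∃ ι : α → Fin n, ∀ x y, ι x = ι y → r x y

lemma Lab.mono {α : Type} {r : α → α → Prop} {n n' : ℕ} (h : Lab α r n) (hn : n ≤ n') :
    Lab α r n' := by
  obtain ⟨ι, hι⟩ := h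
  exact ⟨fun x => Fin.castLE hn (ι x), fun x y e => hι x y (Fin.castLE_injective hn e)⟩

lemma Lab.of_map {α β : Type} [Finite β] {r : α → α → Prop} {n : ℕ} (f : α → β)
    (hn : Nat.card β ≤ n) (hf : ∀ x y, f x = f y → r x y) : Lab α r n := by
  refine Lab.mono ?_ hn
  exact ⟨fun x => Finite.equivFin β (f x), fun x y e => hf x y ((Finite.equivFin β).injective e)⟩

lemma Lab.pull {α β : Type} {r : α → α → Prop} {s : β → β → Prop} {n : ℕ} (h : Lab β s n)
    (f : α → β) (hf : ∀ x y, s (f x) (f y) → r x y) : Lab α r n := by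
  obtain ⟨ι, hι⟩ := h
  exact ⟨fun x => ι (f x), fun x y e => hf x y (hι _ _ e)⟩

lemma Lab.fiber {α β : Type} [Finite β] {r : α → α → Prop} {n m : ℕ} (f : α → β)
    (hn : Nat.card β ≤ n)
    (h : ∀ b, Lab {x // f x = b} (fun x y => r x.1 y.1) m) : Lab α r (n * m) := by
  choose ι hι using h
  refine Lab.of_map (β := β × Fin m) (fun x => (f x, ι (f x) ⟨x, rfl⟩)) ?_ ?_
  · rw [Nat.card_prod, Nat.card_eq_fintype_card (α := Fin m), Fintype.card_fin]
    exact Nat.mul_le_mul_right _ hn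
  · intro x y e
    have e1 : f x = f y := congrArg Prod.fst e
    have e2 : ι (f x) ⟨x, rfl⟩ = ι (f y) ⟨y, rfl⟩ := congrArg Prod.snd e
    have key : ∀ (b : β) (hb : f y = b), ι b ⟨y, hb⟩ = ι (f y) ⟨y, rfl⟩ := by
      intro b hb; subst hb; rfl
    rw [← key (f x) e1.symm] at e2
    exact hι (f x) ⟨x, rfl⟩ ⟨y, e1.symm⟩ e2

/-- Refine a labelling: inside a class we may fix a base point. -/
lemma Lab.refine {α : Type} {r s : α → α → Prop} {n m : ℕ} (h : Lab α s n)
    (h2 : ∀ x0, Lab {x // s x0 x} (fun x y => r x.1 y.1) m) : Lab α r (n * m) := by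
  obtain ⟨ι, hι⟩ := h
  refine Lab.fiber ι (by simp) ?_
  intro b
  by_cases hb : ∃ x0, ι x0 = b
  · obtain ⟨x0, hx0⟩ := hb
    exact (h2 x0).pull (fun x => ⟨x.1, hι _ _ (hx0.trans x.2.symm)⟩) (fun x y e => e)
  · exact ⟨fun x => absurd ⟨x.1, x.2⟩ hb, fun x => absurd ⟨x.1, x.2⟩ hb⟩

lemma Lab.prod {α : Type} {r s t : α → α → Prop} {n m : ℕ} (h1 : Lab α r n) (h2 : Lab α s m)
    (h : ∀ x y, r x y → s x y → t x y) : Lab α t (n * m) := by
  obtain ⟨ι, hι⟩ := h1
  obtain ⟨κ, hκ⟩ := h2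
  refine Lab.of_map (β := Fin n × Fin m) (fun x => (ι x, κ x)) (by simp) ?_
  intro x y e
  exact h x y (hι _ _ (congrArg Prod.fst e)) (hκ _ _ (congrArg Prod.snd e))

lemma Lab.card_quot_le {α : Type} {r : α → α → Prop} {n : ℕ} (h : Lab α r n) :
    Nat.card (Quot r) ≤ n := by
  obtain ⟨ι, hι⟩ := h
  have : Injective (fun q : Quot r => ι q.out) := by
    intro q q' e
    have := Quot.sound (hι _ _ e)
    rwa [Quot.out_eq, Quot.out_eq] at this
  simpa using Nat.card_le_card_of_injective _ this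

lemma Lab.card_le {α : Type} {n : ℕ} (h : Lab α (fun x y => x = y) n) : Nat.card α ≤ n := by
  obtain ⟨ι, hι⟩ := h
  simpa using Nat.card_le_card_of_injective ι (fun x y e => hι x y e)

/-- Modulo `K`, the group `P` has an abelian subgroup of index at most `c` whose `n`-torsion has
at most `M` elements. -/
def ABrel (n : ℕ) {P : Type} [Group P] (K : Subgroup P) (c M : ℕ) : Prop :=
  ∃ T : Subgroup P, T.index ≤ c ∧ (∀ x ∈ T, ∀ y ∈ T, x * y * x⁻¹ * y⁻¹ ∈ K) ∧
    Lab {t : P // t ∈ T ∧ t ^ n ∈ K} (fun x y => x.1⁻¹ * y.1 ∈ K) M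

variable {n : ℕ}

lemma ABrel.mono {P : Type} [Group P] {K : Subgroup P} {c M c' M' : ℕ} (h : ABrel n K c M)
    (hc : c ≤ c') (hM : M ≤ M') : ABrel n K c' M' := by
  obtain ⟨T, h1, h2, h3⟩ := h
  exact ⟨T, h1.trans hc, h2, h3.mono hM⟩

lemma ABrel.inf {P : Type} [Group P] {K K' : Subgroup P} {c M c' M' : ℕ} (h : ABrel n K c M)
    (h' : ABrel n K' c' M') : ABrel n (K ⊓ K') (c * c') (M * M') := by
  obtain ⟨T, h1, h2, h3⟩ := h
  obtain ⟨T', h1', h2', h3'⟩ := h'
  refine ⟨T ⊓ T', Subgroup.index_inf_le.trans (Nat.mul_le_mul h1 h1'), ?_, ?_⟩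
  · intro x hx y hy
    exact ⟨h2 x hx.1 y hy.1, h2' x hx.2 y hy.2⟩
  · refine Lab.prod (r := fun x y => x.1⁻¹ * y.1 ∈ K) (s := fun x y => x.1⁻¹ * y.1 ∈ K') ?_ ?_
      (fun x y a b => ⟨a, b⟩)
    · exact h3.pull (fun x => ⟨x.1, x.2.1.1, x.2.2.1⟩) (fun x y e => e)
    · exact h3'.pull (fun x => ⟨x.1, x.2.1.2, x.2.2.2⟩) (fun x y e => e)

lemma ABrel.top {P : Type} [Group P] : ABrel n (⊤ : Subgroup P) 1 1 :=
  ⟨⊤, by simp, fun _ _ _ _ => trivial, ⟨fun _ => 0, fun _ _ _ => trivial⟩⟩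

lemma ABrel.iInf {P ι : Type} [Group P] (s : Finset ι) (K : ι → Subgroup P) {c M : ℕ}
    (h : ∀ i ∈ s, ABrel n (K i) c M) : ABrel n (⨅ i ∈ s, K i) (c ^ s.card) (M ^ s.card) := by
  classical
  induction s using Finset.induction_on with
  | empty => simpa using ABrel.top
  | insert a s ha ih =>
    rw [Finset.iInf_insert, Finset.card_insert_of_notMem ha, pow_succ', pow_succ']
    exact (h a (Finset.mem_insert_self _ _)).inf
      (ih (fun i hi => h i (Finset.mem_insert_of_mem hi)))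

lemma ABrel.comap {P Q : Type} [Group P] [Group Q] [Finite Q] (f : P →* Q) {K : Subgroup Q}
    {c M : ℕ} (h : ABrel n K c M) : ABrel n (K.comap f) c M := by
  obtain ⟨T, h1, h2, h3⟩ := h
  refine ⟨T.comap f, ?_, ?_, ?_⟩
  · rw [Subgroup.index_comap]
    refine le_trans ?_ h1
    rw [← Subgroup.relIndex_top_right]
    exact Subgroup.relIndex_le_of_le_right le_top
      (by rw [Subgroup.relIndex_top_right]; exact Subgroup.index_ne_zero_of_finite)
  · intro x hx y hy
    simpa using h2 (f x) hx (f y) hy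
  · refine h3.pull (fun x => ⟨f x.1, x.2.1, by simpa using x.2.2⟩) ?_
    intro x y e
    simpa using e

lemma ABrel.of_subgroup {P : Type} [Group P] (H : Subgroup P) {K : Subgroup P}
    {c M j : ℕ} (hj : H.index ≤ j) (h : ABrel n (K.subgroupOf H) c M) :
    ABrel n K (c * j) M := by
  obtain ⟨T, h1, h2, h3⟩ := h
  refine ⟨T.map H.subtype, ?_, ?_, ?_⟩
  · rw [Subgroup.index_map_subtype]; exact Nat.mul_le_mul h1 hj
  · rintro _ ⟨x, hx, rfl⟩ _ ⟨y, hy, rfl⟩
    exact h2 x hx y hy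
  · refine h3.pull (fun x => ⟨⟨x.1, ?_⟩, ?_, ?_⟩) ?_
    · obtain ⟨y, -, e⟩ := x.2.1
      rw [← e]; exact y.2
    · obtain ⟨y, hy, e⟩ := x.2.1
      have : (⟨x.1, by rw [← e]; exact y.2⟩ : H) = y := Subtype.ext e.symm
      rw [this]; exact hy
    · exact x.2.2
    · intro x y e; exact e

lemma ABrel.bot_of_card {P : Type} [Group P] [Finite P] {c : ℕ} (h : Nat.card P ≤ c) :
    ABrel n (⊥ : Subgroup P) c 1 := by
  refine ⟨⊥, by simpa using h, ?_, ⟨fun _ => 0, ?_⟩⟩
  · intro x hx y hy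
    rw [Subgroup.mem_bot] at hx hy ⊢
    simp [hx, hy]
  · intro x y _
    have hx := Subgroup.mem_bot.mp x.2.1
    have hy := Subgroup.mem_bot.mp y.2.1
    simp [hx, hy]

/-- torsion does not grow in quotients of finite abelian groups -/
lemma card_tors_le_of_surj {T W : Type} [CommGroup T] [CommGroup W] [Finite T] (π : T →* W)
    (hπ : Surjective π) (n : ℕ) :
    Nat.card {w : W // w ^ n = 1} ≤ Nat.card {t : T // t ^ n = 1} := by
  have : Finite W := Finite.of_surjective π hπ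
  have e1 : Nat.card {w : W // w ^ n = 1} = (powMonoidHom n : W →* W).range.index := by
    rw [Subgroup.index_range]; rfl
  have e2 : Nat.card {t : T // t ^ n = 1} = (powMonoidHom n : T →* T).range.index := by
    rw [Subgroup.index_range]; rfl
  have e3 : (powMonoidHom n : W →* W).range = (powMonoidHom n : T →* T).range.map π := by
    ext w
    constructor
    · rintro ⟨v, rfl⟩
      obtain ⟨t, rfl⟩ := hπ v
      exact ⟨t ^ n, ⟨t, rfl⟩, by simp⟩
    · rintro ⟨_, ⟨t, rfl⟩, rfl⟩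
      exact ⟨π t, by simp⟩
  rw [e1, e2, e3]
  exact Nat.le_of_dvd (Nat.pos_of_ne_zero Subgroup.index_ne_zero_of_finite)
    (Subgroup.index_map_dvd _ hπ)

open scoped IsMulCommutative in
/-- Elements killed by `n` in an abelian-by-bounded group fall into boundedly many classes. -/
lemma lab_elements {P : Type} [Group P] [Finite P] {c M : ℕ}
    (h : ABrel n (⊥ : Subgroup P) c M) :
    Lab {x : P // x ^ n = 1} (fun x y => IsConj x.1 y.1) (c.factorial * M) := by
  obtain ⟨T, h1, h2, h3⟩ := h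
  set T0 := T.normalCore with hT0
  have hle : T0 ≤ T := T.normalCore_le
  have hidx : T0.index ≤ c.factorial := by
    have h : T0.index ∣ T.index.factorial := by
      rw [hT0, Subgroup.normalCore_eq_ker, Subgroup.index_ker, Subgroup.index_eq_card,
        ← Nat.card_perm]
      exact Subgroup.card_subgroup_dvd_card (MulAction.toPermHom P (P ⧸ T)).range
    exact (Nat.le_of_dvd (Nat.factorial_pos _) h).trans (Nat.factorial_le h1)
  have hcomm : ∀ x ∈ T0, ∀ y ∈ T0, x * y = y * x := by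
    intro x hx y hy
    have := Subgroup.mem_bot.mp (h2 x (hle hx) y (hle hy))
    calc x * y = (x * y * x⁻¹ * y⁻¹) * (y * x) := by group
      _ = y * x := by rw [this, one_mul]
  have : IsMulCommutative T0 := ⟨⟨fun x y => Subtype.ext (hcomm x x.2 y y.2)⟩⟩
  have hM : Nat.card {t : T0 // t ^ n = 1} ≤ M := by
    apply Lab.card_le
    refine h3.pull (fun t => ⟨t.1.1, hle t.1.2, ?_⟩) ?_
    · rw [Subgroup.mem_bot]
      have := congrArg Subtype.val t.2
      simpa using this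
    · intro x y e
      apply Subtype.ext; apply Subtype.ext
      exact inv_mul_eq_one.mp (Subgroup.mem_bot.mp e)
  have L1 : Lab {x : P // x ^ n = 1} (fun x y => y.1 * x.1⁻¹ ∈ T0) c.factorial := by
    refine Lab.of_map (fun x => (QuotientGroup.mk x.1 : P ⧸ T0)) hidx ?_
    intro x y e
    have := QuotientGroup.eq.mp e
    have h5 := (inferInstance : T0.Normal).conj_mem _ this x.1
    simpa [mul_assoc] using h5
  refine L1.refine ?_
  intro x0
  let σ : T0 →* T0 := (MulAut.conjNormal x0.1 : MulAut T0).toMonoidHom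
  have hσ : ∀ s : T0, (σ s : P) = x0.1 * s * x0.1⁻¹ := fun s => rfl
  let D : T0 →* T0 := (MonoidHom.id T0) / σ
  have hD : ∀ s : T0, D s = s / σ s := fun s => rfl
  let π : T0 →* T0 ⧸ D.range := QuotientGroup.mk' _
  have hπσ : ∀ s, π (σ s) = π s := by
    intro s
    apply QuotientGroup.eq.mpr
    refine ⟨s, ?_⟩
    rw [hD, div_eq_mul_inv, mul_comm]
  have key : ∀ (t : T0) (i : ℕ), ∃ u : T0, (u : P) = (t * x0.1) ^ i * (x0.1 ^ i)⁻¹ ∧
      π u = π t ^ i := by
    intro t i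
    induction i with
    | zero => exact ⟨1, by simp, by simp⟩
    | succ i ih =>
      obtain ⟨u, hu1, hu2⟩ := ih
      refine ⟨t * σ u, ?_, ?_⟩
      · rw [Subgroup.coe_mul, hσ, hu1, pow_succ' (t * x0.1), pow_succ' x0.1]
        group
      · rw [map_mul, hπσ, hu2, pow_succ']
  have hW := (card_tors_le_of_surj π (QuotientGroup.mk'_surjective _) n).trans hM
  refine Lab.of_map (β := {w : T0 ⧸ D.range // w ^ n = 1})
    (fun x => ⟨π ⟨x.1.1 * x0.1⁻¹, x.2⟩, ?_⟩) hW ?_
  · obtain ⟨u, hu1, hu2⟩ := key ⟨x.1.1 * x0.1⁻¹, x.2⟩ n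
    rw [← hu2]
    have : u = 1 := by
      apply Subtype.ext
      rw [hu1]
      simp [x.1.2, x0.2]
    rw [this, map_one]
  · intro x y e
    have e' := congrArg Subtype.val e
    obtain ⟨s, hs⟩ := QuotientGroup.eq.mp e'
    rw [hD] at hs
    have hs' : (⟨y.1.1 * x0.1⁻¹, y.2⟩ : T0) = s * ⟨x.1.1 * x0.1⁻¹, x.2⟩ * (σ s)⁻¹ := by
      rw [← mul_inv_cancel_left (⟨x.1.1 * x0.1⁻¹, x.2⟩ : T0) ⟨y.1.1 * x0.1⁻¹, y.2⟩, ← hs,
        div_eq_mul_inv, ← mul_assoc, mul_comm s]
    have hs'' := congrArg Subtype.val hs'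
    simp only [Subgroup.coe_mul, Subgroup.coe_inv, hσ] at hs''
    rw [isConj_iff]
    refine ⟨s, ?_⟩
    calc (s : P) * x.1.1 * (s : P)⁻¹
        = (s * (x.1.1 * x0.1⁻¹) * (x0.1 * s * x0.1⁻¹)⁻¹) * x0.1 := by group
      _ = y.1.1 := by rw [← hs'']; group

end Pool.Agent.MP_5f7865_al
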